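import Mathlib
import Pool.Agent.H12.Sig

set_option autoImplicit false

namespace Pool.Agent.Results.MP_d14146_co.L1Sig

open Pool.Agent.H12.Sig

/-- Every finite connected graph on at least two vertices has a sphere-of-influence metric that is the
l_1 metric of a point set in some R^m. -/
theorem result (n : ℕ) (hn : 2 ≤ n) (G : SimpleGraph (Fin n)) (hG : G.Connected) :
    ∃ (m : ℕ) (X : Fin n → Fin m → ℝ) (d : Fin n → Fin n → ℝ) (r : Fin n → ℝ),
      1 ≤ m ∧ (∀ i j, d i j = ∑ k, |X i k - X j k|) ∧ (∀ i j, d i j = 0 ↔ i = j) ∧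
      (∀ i, IsLeast {x | ∃ j, j ≠ i ∧ x = d i j} (r i)) ∧
      ∀ i j, i ≠ j → (G.Adj i j → d i j < r i + r j) ∧ (¬ G.Adj i j → r i + r j ≤ d i j) := by
  obtain ⟨S⟩ := exists_setup G hn hG
  have : Nontrivial (Fin n) := Fin.nontrivial_iff_two_le.2 hn
  obtain ⟨r, h0, h1, h2⟩ := S.main
  let e := Fintype.equivFin (Fin n ⊕ Fin n × Fin n)
  refine ⟨_, fun i k => S.X i (e.symm k), S.d, r, ?_, ?_, ?_, h1, ?_⟩
  · simp
    omega
  · intro i j
    exact (Equiv.sum_comp e.symm (fun k => |S.X i k - S.X j k|)).symm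
  · intro i j
    refine ⟨fun h => ?_, fun h => h ▸ S.d_self i⟩
    by_contra hne
    have h3 := (h1 i).2 ⟨j, Ne.symm hne, rfl⟩
    linarith [h0 i]
  · intro i j hij
    exact ⟨(h2 i j hij).1, fun h => not_lt.1 (fun h' => h ((h2 i j hij).2 h'))⟩

end Pool.Agent.Results.MP_d14146_co.L1Sig
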